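import Pool.Agent.K4H65.EM.Spec

set_option autoImplicit false

namespace Pool.Agent.K4H65.EM

open Finset

theorem rand_sum (n l : ℕ) (hn : n < 2 ^ l) :
    ∑ U : Finset (Fin n), (1 / (2 : ℝ) ^ ((l + 1) * U.card)) ≤ 2 := by
  have h1 : ∑ U : Finset (Fin n), (1 / (2 : ℝ) ^ ((l + 1) * U.card)) =
      (1 / (2 : ℝ) ^ (l + 1) + 1) ^ n := by
    have := Finset.sum_pow_mul_eq_add_pow (1 / (2 : ℝ) ^ (l + 1)) (1 : ℝ) (univ : Finset (Fin n))
    rw [Finset.card_univ, Fintype.card_fin, Finset.powerset_univ] at this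
    rw [← this]
    refine Finset.sum_congr rfl fun U _ => ?_
    rw [one_pow, mul_one, div_pow, one_pow, ← pow_mul]
  rw [h1]
  have h2 : (1 / (2 : ℝ) ^ (l + 1) + 1) ≤ Real.exp (1 / (2 : ℝ) ^ (l + 1)) :=
    Real.add_one_le_exp _
  have h3 : (1 / (2 : ℝ) ^ (l + 1) + 1) ^ n ≤ Real.exp (1 / (2 : ℝ) ^ (l + 1)) ^ n :=
    pow_le_pow_left₀ (by positivity) h2 n
  rw [← Real.exp_nat_mul] at h3
  have h4 : (n : ℝ) * (1 / (2 : ℝ) ^ (l + 1)) ≤ 1 / 2 := by
    have : (n : ℝ) ≤ 2 ^ l := by exact_mod_cast hn.le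
    rw [pow_succ, mul_one_div, div_le_div_iff₀ (by positivity) (by norm_num)]
    linarith
  have h5 : Real.exp (1 / 2) ≤ 2 := by
    have : Real.exp (1 / 2) ^ 2 ≤ 2 ^ 2 := by
      rw [← Real.exp_nat_mul]
      norm_num
      have := Real.exp_one_lt_d9
      linarith
    exact (abs_le_of_sq_le_sq' this (by norm_num)).2
  exact h3.trans ((Real.exp_le_exp.2 h4).trans h5)

theorem rand : S_T1 → S_T2 → S_RAND := by
  intro h1 h2 n l hl hn
  classical
  by_contra hcon
  push Not at hcon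
  let B1 : Finset (Fin n) → Finset (Fin n × Fin n → Fin 1024) := fun U =>
    univ.filter fun ω => 2 ^ 37 * l ≤ U.card ∧
      8 * 1024 * ((U ×ˢ U).filter fun e => (gr ω).Adj e.1 e.2).card < U.card ^ 2
  let B2 : Finset (Fin n) → (Fin (2 ^ 19 * l) × Fin 2 → Fin n) →
      Finset (Fin n × Fin n → Fin 1024) := fun U g =>
    univ.filter fun ω => 2 ^ 37 * l ≤ U.card ∧ Function.Injective g ∧
      ∀ j, U.card ≤ 64 * 1024 * cn (gr ω) U (g (j, 0)) (g (j, 1))
  have hB1 : ∀ U, ((B1 U).card : ℝ) ≤ 1024 ^ (n * n) / 8 * (1 / (2 : ℝ) ^ ((l + 1) * U.card)) := by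
    intro U
    by_cases hU : 2 ^ 37 * l ≤ U.card
    · have h := h1 n l U hl hU
      have hc : (B1 U) = (univ.filter fun ω : Fin n × Fin n → Fin 1024 =>
          8 * 1024 * ((U ×ˢ U).filter fun e => (gr ω).Adj e.1 e.2).card < U.card ^ 2) := by
        ext ω; simp only [B1, mem_filter, mem_univ, true_and, hU]
      have h' : ((B1 U).card : ℝ) * 2 ^ ((l + 1) * U.card + 3) ≤ 1024 ^ (n * n) := by
        rw [hc]; exact_mod_cast h
      rw [pow_add] at h'
      rw [mul_one_div, le_div_iff₀ (by positivity), le_div_iff₀ (by norm_num)]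
      calc _ = ((B1 U).card : ℝ) * (2 ^ ((l + 1) * U.card) * 2 ^ 3) := by ring
        _ ≤ _ := h'
    · have : B1 U = ∅ := by
        ext ω
        simp only [B1, mem_filter, mem_univ, true_and, notMem_empty, iff_false]
        rintro ⟨a, _⟩
        exact hU a
      rw [this, card_empty, Nat.cast_zero]; positivity
  have hB2 : ∀ U g, ((B2 U g).card : ℝ) ≤
      1024 ^ (n * n) / 8 * (1 / (2 : ℝ) ^ (2 * (2 ^ 19 * l) * l)) *
        (1 / (2 : ℝ) ^ ((l + 1) * U.card)) := by
    intro U g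
    by_cases hU : 2 ^ 37 * l ≤ U.card ∧ Function.Injective g
    · have h := h2 n l U g hl hU.1 hU.2
      have hc : (B2 U g) = (univ.filter fun ω : Fin n × Fin n → Fin 1024 =>
          ∀ j, U.card ≤ 64 * 1024 * cn (gr ω) U (g (j, 0)) (g (j, 1))) := by
        ext ω; simp only [B2, mem_filter, mem_univ, true_and, hU.1, hU.2]
      have h' : ((B2 U g).card : ℝ) * 2 ^ ((l + 1) * U.card + 2 * (2 ^ 19 * l) * l + 3) ≤
          1024 ^ (n * n) := by
        rw [hc]; exact_mod_cast h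
      rw [pow_add, pow_add] at h'
      rw [mul_one_div, mul_one_div, le_div_iff₀ (by positivity), le_div_iff₀ (by positivity),
        le_div_iff₀ (by norm_num)]
      calc _ = ((B2 U g).card : ℝ) * (2 ^ ((l + 1) * U.card) * 2 ^ (2 * (2 ^ 19 * l) * l) * 2 ^ 3) := by
            ring
        _ ≤ _ := h'
    · have : B2 U g = ∅ := by
        ext ω
        simp only [B2, mem_filter, mem_univ, true_and, notMem_empty, iff_false]
        rintro ⟨a, b, _⟩
        exact hU ⟨a, b⟩
      rw [this, card_empty, Nat.cast_zero]; positivity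
  have hcov : (univ : Finset (Fin n × Fin n → Fin 1024)) ⊆
      (univ.biUnion B1) ∪ (univ.biUnion fun U => univ.biUnion fun g => B2 U g) := by
    intro ω _
    rw [mem_union]
    by_cases hP1 : P1 (gr ω) (2 ^ 37 * l)
    · right
      have := hcon (gr ω) hP1
      unfold P2 at this
      push Not at this
      obtain ⟨U, hU, g, hg, hj⟩ := this
      simp only [mem_biUnion, mem_univ, true_and]
      refine ⟨U, g, ?_⟩
      simp only [B2, mem_filter, mem_univ, true_and]
      exact ⟨hU, hg, hj⟩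
    · left
      unfold P1 at hP1
      push Not at hP1
      obtain ⟨U, hU, hj⟩ := hP1
      simp only [mem_biUnion, mem_univ, true_and]
      refine ⟨U, ?_⟩
      simp only [B1, mem_filter, mem_univ, true_and]
      exact ⟨hU, hj⟩
  have hcard := (card_le_card hcov).trans (card_union_le _ _)
  have hcard' : (1024 : ℝ) ^ (n * n) ≤ ∑ U : Finset (Fin n), ((B1 U).card : ℝ) +
      ∑ U : Finset (Fin n), ∑ g : (Fin (2 ^ 19 * l) × Fin 2 → Fin n), ((B2 U g).card : ℝ) := by
    have e1 : (univ : Finset (Fin n × Fin n → Fin 1024)).card = 1024 ^ (n * n) := by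
      rw [card_univ, Fintype.card_fun, Fintype.card_prod, Fintype.card_fin, Fintype.card_fin]
    have e2 : (univ.biUnion B1).card ≤ ∑ U : Finset (Fin n), (B1 U).card := card_biUnion_le
    have e3 : (univ.biUnion fun U => univ.biUnion fun g => B2 U g).card ≤
        ∑ U : Finset (Fin n), ∑ g : (Fin (2 ^ 19 * l) × Fin 2 → Fin n), (B2 U g).card :=
      card_biUnion_le.trans (sum_le_sum fun U _ => card_biUnion_le)
    rw [e1] at hcard
    have := hcard.trans (add_le_add e2 e3)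
    exact_mod_cast this
  have hS := rand_sum n l hn
  have s1 : ∑ U : Finset (Fin n), ((B1 U).card : ℝ) ≤ 1024 ^ (n * n) / 8 * 2 := by
    refine (sum_le_sum fun U _ => hB1 U).trans ?_
    rw [← mul_sum]
    exact mul_le_mul_of_nonneg_left hS (by positivity)
  have hg : (Fintype.card (Fin (2 ^ 19 * l) × Fin 2 → Fin n) : ℝ) ≤ 2 ^ (2 * (2 ^ 19 * l) * l) := by
    rw [Fintype.card_fun, Fintype.card_prod, Fintype.card_fin, Fintype.card_fin, Fintype.card_fin]
    have : n ^ (2 ^ 19 * l * 2) ≤ (2 ^ l) ^ (2 ^ 19 * l * 2) := Nat.pow_le_pow_left hn.le _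
    have e : (2 ^ l) ^ (2 ^ 19 * l * 2) = 2 ^ (2 * (2 ^ 19 * l) * l) := by
      rw [← pow_mul]; congr 1; ring
    rw [e] at this
    exact_mod_cast this
  have s2 : ∑ U : Finset (Fin n), ∑ g : (Fin (2 ^ 19 * l) × Fin 2 → Fin n), ((B2 U g).card : ℝ) ≤
      1024 ^ (n * n) / 8 * 2 := by
    have : ∀ U : Finset (Fin n), ∑ g : (Fin (2 ^ 19 * l) × Fin 2 → Fin n), ((B2 U g).card : ℝ) ≤
        1024 ^ (n * n) / 8 * (1 / (2 : ℝ) ^ ((l + 1) * U.card)) := by
      intro U
      refine (sum_le_sum fun g _ => hB2 U g).trans ?_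
      rw [sum_const, card_univ, nsmul_eq_mul]
      have hx : (0 : ℝ) < 2 ^ (2 * (2 ^ 19 * l) * l) := by positivity
      calc (Fintype.card (Fin (2 ^ 19 * l) × Fin 2 → Fin n) : ℝ) *
            (1024 ^ (n * n) / 8 * (1 / (2 : ℝ) ^ (2 * (2 ^ 19 * l) * l)) *
              (1 / (2 : ℝ) ^ ((l + 1) * U.card)))
          ≤ 2 ^ (2 * (2 ^ 19 * l) * l) *
            (1024 ^ (n * n) / 8 * (1 / (2 : ℝ) ^ (2 * (2 ^ 19 * l) * l)) *
              (1 / (2 : ℝ) ^ ((l + 1) * U.card))) :=
            mul_le_mul_of_nonneg_right hg (by positivity)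
        _ = 1024 ^ (n * n) / 8 * (1 / (2 : ℝ) ^ ((l + 1) * U.card)) *
            (2 ^ (2 * (2 ^ 19 * l) * l) * (1 / (2 : ℝ) ^ (2 * (2 ^ 19 * l) * l))) := by ring
        _ = _ := by rw [mul_one_div_cancel hx.ne', mul_one]
    refine (sum_le_sum fun U _ => this U).trans ?_
    rw [← mul_sum]
    exact mul_le_mul_of_nonneg_left hS (by positivity)
  have hpos : (0 : ℝ) < 1024 ^ (n * n) := by positivity
  linarith

end Pool.Agent.K4H65.EM
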